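import Pool.Agent.R837.FM.Main

/-!
MP_19ffc6_ag: resolution of the quotients of the spaces of `n × m`-matrices in characteristic `p`
by the general linear group `GL_n (F)` over a finite field `F`, by its parabolic subgroups, by the
groups of unipotent triangular matrices over `F`, and by the corresponding affine groups.
-/

set_option autoImplicit false

open AlgebraicGeometry CategoryTheory MvPolynomial Pool.Agent.H920R2

universe u

namespace Pool.Agent.Results.MP_19ffc6_ag.FiniteAffineGroups

variable {F : Type} [Field F] {k : Type u} [Field k] [Algebra F k] {n m : ℕ}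

/-- The substitution `x_(i, l) ↦ ∑ j, g_(i, j) * x_(j, l) + v_(i, l)` in the polynomial ring
`k[x_(i, l)]`, `i < n`, `l < m`, the coordinate ring of the space of `n × m`-matrices: the
substitution `x ↦ g x + v` given by an `n × n`-matrix `g` over `F` and an `n × m`-matrix `v` over
`k`. -/
noncomputable def subst (g : Matrix (Fin n) (Fin n) F) (v : Fin n → Fin m → k) :
    MvPolynomial (Fin n × Fin m) k →ₐ[k] MvPolynomial (Fin n × Fin m) k :=
  aeval fun p => ∑ j, C (algebraMap F k (g p.1 j)) * X (j, p.2) + C (v p.1 p.2)

/-- The matrices `g` with `g_(i, j) = 0` if the level `lv i` is smaller than the level `lv j`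
(the block triangular matrices with respect to the levels), and with `g_(i, i) ^ s_i = 1` for all
`i` which are alone in their level. -/
def IsLevelTriangular (lv s : Fin n → ℕ) (g : Matrix (Fin n) (Fin n) F) : Prop :=
  (∀ i j, lv i < lv j → g i j = 0) ∧ ∀ i, (∀ j, lv j = lv i → j = i) → g i i ^ s i = 1

/-- `σ` is one of the substitutions `x ↦ g x + v` with an invertible level triangular matrix `g`
over `F` and a matrix `v` all of whose rows are in the `F`-vector space `W ⊆ k ^ m`. -/
def IsSubst (lv s : Fin n → ℕ) (W : Submodule F (Fin m → k))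
    (σ : MvPolynomial (Fin n × Fin m) k ≃ₐ[k] MvPolynomial (Fin n × Fin m) k) : Prop :=
  ∃ g : Matrix.GeneralLinearGroup (Fin n) F, IsLevelTriangular lv s (g : Matrix (Fin n) (Fin n) F) ∧
    ∃ v : Fin n → Fin m → k, (∀ i, v i ∈ W) ∧
    (σ : MvPolynomial (Fin n × Fin m) k →ₐ[k] MvPolynomial (Fin n × Fin m) k) =
      subst (g : Matrix (Fin n) (Fin n) F) v

/-- The finite group of the substitutions `x ↦ g x + v` with an invertible level triangular matrix
`g` over the finite field `F` and a matrix `v` all of whose rows are in the finite `F`-vector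
space `W ⊆ k ^ m`. -/
def group [Fintype F] (lv s : Fin n → ℕ) (W : Submodule F (Fin m → k)) :
    Subgroup (MvPolynomial (Fin n × Fin m) k ≃ₐ[k] MvPolynomial (Fin n × Fin m) k) where
  carrier := {σ | IsSubst lv s W σ}
  mul_mem' := fun ha hb => (Pool.Agent.R837.FM.affGrp lv s W).mul_mem ha hb
  one_mem' := (Pool.Agent.R837.FM.affGrp lv s W).one_mem
  inv_mem' := fun ha => (Pool.Agent.R837.FM.affGrp lv s W).inv_mem ha

/-- The algebra of the polynomials which are invariant under a group of automorphisms. -/
def invariants (Γ : Subgroup (MvPolynomial (Fin n × Fin m) k ≃ₐ[k] MvPolynomial (Fin n × Fin m) k)) :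
    Subalgebra k (MvPolynomial (Fin n × Fin m) k) where
  carrier := {b | ∀ σ ∈ Γ, σ b = b}
  mul_mem' := fun {a b} ha hb σ hσ => by rw [map_mul, ha σ hσ, hb σ hσ]
  add_mem' := fun {a b} ha hb σ hσ => by rw [map_add, ha σ hσ, hb σ hσ]
  algebraMap_mem' := fun c σ _ => AlgEquiv.commutes σ c

/-- The quotient of the space of `n × m`-matrices over `k` by a group. -/
noncomputable def quot
    (Γ : Subgroup (MvPolynomial (Fin n × Fin m) k ≃ₐ[k] MvPolynomial (Fin n × Fin m) k)) :
    Scheme.{u} := Spec (CommRingCat.of (invariants Γ))

/-- The structure morphism of the quotient. -/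
noncomputable def quotStr
    (Γ : Subgroup (MvPolynomial (Fin n × Fin m) k ≃ₐ[k] MvPolynomial (Fin n × Fin m) k)) :
    quot Γ ⟶ Spec (CommRingCat.of k) :=
  Spec.map (CommRingCat.ofHom (algebraMap k (invariants Γ)))

/-- Let `F` be a finite field with `q` elements, `k` a field which contains `F` and `n`, `m`
natural numbers, `m > 0`. Let `lv i`, `i < n`, be levels, `s i` divisors of `q - 1`, and `W` a
finite `F`-subspace of `k ^ m`. Let `Γ` be the finite group of the transformations `x ↦ g x + v`
of the space of `n × m`-matrices over `k`, where `g` is an invertible matrix over `F` which is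
block triangular with respect to the levels, with `g_(i, i) ^ s_i = 1` for all `i` which are alone
in their level, and where all rows of `v` are in `W`. Then the quotient of the space of
`n × m`-matrices by `Γ` is a variety and has a resolution of singularities. -/
theorem result (F : Type) [Field F] [Fintype F] (k : Type u) [Field k] [Algebra F k] (n m : ℕ)
    (hm : 0 < m) (lv s : Fin n → ℕ) (hs : ∀ i, s i ∣ Fintype.card F - 1)
    (W : Submodule F (Fin m → k)) [Finite W] :
    IsVariety (quotStr (group lv s W)) ∧
    ∃ (Y : Scheme.{u}) (π : Y ⟶ quot (group lv s W)),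
      AlgebraicGeometry.IsIntegral Y ∧ AlgebraicGeometry.IsProper π ∧
      AlgebraicGeometry.Smooth (π ≫ quotStr (group lv s W)) ∧
      ∃ U : (quot (group lv s W)).Opens,
        Dense (U : Set (quot (group lv s W))) ∧ IsIso (π ∣_ U) := by
  have h1 : Algebra.FiniteType k
      (Pool.Agent.R837.FM.inva (Pool.Agent.R837.FM.affGrp (n := n) lv s W)) :=
    Pool.Agent.R837.FM.finiteType_inva _
  have h2 : IsVariety (X := Spec (CommRingCat.of
      (Pool.Agent.R837.FM.inva (Pool.Agent.R837.FM.affGrp (n := n) lv s W))))
      (Spec.map (CommRingCat.ofHom (algebraMap k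
        (Pool.Agent.R837.FM.inva (Pool.Agent.R837.FM.affGrp (n := n) lv s W))))) :=
    isVariety_spec
  exact ⟨h2, Pool.Agent.R837.FM.main hm lv s hs W⟩

end Pool.Agent.Results.MP_19ffc6_ag.FiniteAffineGroups
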