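import Pool.Agent.R837.FP.Main
import Pool.Agent.R837.FP.Order

/-!
MP_19ffc6_ag: resolution of the quotients of the spaces of `n × m`-matrices in characteristic `p`
by the incidence groups over finite fields of the preorders in which the elements below a given
element form a chain (forests); for example by the elementary abelian groups of the transvections
`x_i ↦ x_i + a_i x_1`, by the pointwise stabilizers of a quotient space, and by the stabilizers of
families of subspaces which form a forest.
-/

set_option autoImplicit false

open AlgebraicGeometry CategoryTheory MvPolynomial Pool.Agent.H920R2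

universe u

namespace Pool.Agent.Results.MP_19ffc6_ag.ForestGroups

variable {F : Type} [Field F] {k : Type u} [Field k] [Algebra F k] {n m : ℕ}

/-- The relation `r` (`r j i`: `j` is below `i`) is a preorder such that any two elements below a
given element are comparable: the elements below a given element form a chain. The relation need
not be antisymmetric: its classes of equivalent elements form a forest. -/
structure IsForest (r : Fin n → Fin n → Prop) : Prop where
  refl : ∀ i, r i i
  trans : ∀ i j l, r i j → r j l → r i l
  chain : ∀ i j l, r j i → r l i → r j l ∨ r l j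

/-- The linear substitution `x_(i, l) ↦ ∑ j, g_(i, j) * x_(j, l)` in the polynomial ring
`k[x_(i, l)]`, `i < n`, `l < m`, the coordinate ring of the space of `n × m`-matrices, given by an
`n × n`-matrix `g` over `F`: the action of `g` by left multiplication. -/
noncomputable def subst (g : Matrix (Fin n) (Fin n) F) :
    MvPolynomial (Fin n × Fin m) k →ₐ[k] MvPolynomial (Fin n × Fin m) k :=
  aeval fun p => ∑ j, C (algebraMap F k (g p.1 j)) * X (j, p.2)

/-- The matrices `g` with `g_(i, j) = 0` if `j` is not below `i`, and with `g_(i, i) ^ s_i = 1`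
for all `i` which are not equivalent to another element. The invertible matrices with this property
form a group. -/
def IsIncidence (r : Fin n → Fin n → Prop) (s : Fin n → ℕ) (g : Matrix (Fin n) (Fin n) F) : Prop :=
  (∀ i j, ¬ r j i → g i j = 0) ∧ ∀ i, (∀ j, r i j → r j i → j = i) → g i i ^ s i = 1

/-- The algebra of the polynomials which are invariant under the group of the invertible matrices
over `F` with the above property. -/
def invariants (F : Type) [Field F] {k : Type u} [Field k] [Algebra F k] {n m : ℕ}
    (r : Fin n → Fin n → Prop) (s : Fin n → ℕ) :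
    Subalgebra k (MvPolynomial (Fin n × Fin m) k) where
  carrier := {b | ∀ g : Matrix.GeneralLinearGroup (Fin n) F,
    IsIncidence r s (g : Matrix (Fin n) (Fin n) F) → subst (g : Matrix (Fin n) (Fin n) F) b = b}
  mul_mem' := fun {a b} ha hb g hg => by rw [map_mul, ha g hg, hb g hg]
  add_mem' := fun {a b} ha hb g hg => by rw [map_add, ha g hg, hb g hg]
  algebraMap_mem' := fun c g _ => AlgHom.commutes _ c

/-- The quotient of the space of `n × m`-matrices over `k` by the group. -/
noncomputable def quot (F : Type) [Field F] (k : Type u) [Field k] [Algebra F k] {n : ℕ} (m : ℕ)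
    (r : Fin n → Fin n → Prop) (s : Fin n → ℕ) : Scheme.{u} :=
  Spec (CommRingCat.of (invariants F (k := k) (m := m) r s))

/-- The structure morphism of the quotient. -/
noncomputable def quotStr (F : Type) [Field F] (k : Type u) [Field k] [Algebra F k] {n : ℕ}
    (m : ℕ) (r : Fin n → Fin n → Prop) (s : Fin n → ℕ) :
    quot F k m r s ⟶ Spec (CommRingCat.of k) :=
  Spec.map (CommRingCat.ofHom (algebraMap k (invariants F (k := k) (m := m) r s)))

lemma subst_eq [Fintype F] (g : Matrix (Fin n) (Fin n) F) (v : Fin n → Fin m → k)
    (hv : ∀ i, v i ∈ (⊥ : Submodule F (Fin m → k))) :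
    (subst g : MvPolynomial (Fin n × Fin m) k →ₐ[k] MvPolynomial (Fin n × Fin m) k) =
      Pool.Agent.R837.FM.aff g v := by
  apply algHom_ext
  rintro ⟨i, l⟩
  have h1 : v i = 0 := (Submodule.mem_bot F).1 (hv i)
  rw [Pool.Agent.R837.FM.aff_X, h1, Pi.zero_apply, C_0, add_zero]
  unfold subst
  rw [aeval_X]

lemma invariants_eq [Fintype F] (r : Fin n → Fin n → Prop) (s : Fin n → ℕ) (par : ℕ → ℕ)
    (hpar : ∀ a, par a ≤ a) (lv : Fin n → ℕ)
    (hlv : ∀ i j, Pool.Agent.R837.FP.Anc par (lv j) (lv i) ↔ r j i) :
    invariants F (k := k) (m := m) r s = Pool.Agent.R837.FM.inva (Pool.Agent.R837.FS.affG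
      (Pool.Agent.R837.FP.parF F par hpar lv s) (⊥ : Submodule F (Fin m → k))) := by
  have hc : ∀ g : Matrix.GeneralLinearGroup (Fin n) F,
      IsIncidence r s (g : Matrix (Fin n) (Fin n) F) ↔
        g ∈ Pool.Agent.R837.FP.parF F par hpar lv s := by
    intro g
    have h1 : ∀ i j, lv j = lv i ↔ r i j ∧ r j i := by
      intro i j
      rw [← hlv i j, ← hlv j i]
      constructor
      · intro h
        rw [h]
        exact ⟨Pool.Agent.R837.FP.Anc.refl _, Pool.Agent.R837.FP.Anc.refl _⟩
      · rintro ⟨h2, h3⟩
        exact le_antisymm (Pool.Agent.R837.FP.Anc.le hpar h3)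
          (Pool.Agent.R837.FP.Anc.le hpar h2)
    change _ ↔ Pool.Agent.R837.FP.CondF par lv s (g : Matrix (Fin n) (Fin n) F)
    unfold IsIncidence Pool.Agent.R837.FP.CondF
    refine and_congr (forall_congr' fun i => forall_congr' fun j => ?_)
      (forall_congr' fun i => ?_)
    · rw [hlv i j]
    · refine imp_congr ⟨fun h j hj => ?_, fun h j hj1 hj2 => ?_⟩ Iff.rfl
      · exact h j ((h1 i j).1 hj).1 ((h1 i j).1 hj).2
      · exact h j ((h1 i j).2 ⟨hj1, hj2⟩)
  ext b
  constructor
  · rintro hb σ ⟨g, hg, v, hv, hσ⟩
    have h1 : σ b = Pool.Agent.R837.FM.aff (g : Matrix (Fin n) (Fin n) F) v b :=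
      congrArg (fun f => f b) hσ
    rw [h1, ← subst_eq _ v hv]
    exact hb g ((hc g).2 hg)
  · intro hb g hg
    obtain ⟨τ, hτ⟩ := Pool.Agent.R837.FM.exists_equiv g (fun _ => 0 : Fin n → Fin m → k)
    have h1 := hb τ ⟨g, (hc g).1 hg, fun _ => 0, fun _ => Submodule.zero_mem _, hτ⟩
    have h2 : τ b = Pool.Agent.R837.FM.aff (g : Matrix (Fin n) (Fin n) F)
        (fun _ => 0 : Fin n → Fin m → k) b := congrArg (fun f => f b) hτ
    rw [subst_eq (g : Matrix (Fin n) (Fin n) F) (fun _ => 0) fun _ => Submodule.zero_mem _, ← h2]
    exact h1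

/-- Let `F` be a finite field with `q` elements, `k` a field which contains `F`, and `m > 0`. Let
`r` be a preorder on the set of the `n` indices in which the elements below a given element form a
chain, and let `s i` be divisors of `q - 1`. Let `G` be the finite group of the invertible matrices
`g` over `F` with `g_(i, j) = 0` if `j` is not below `i`, and with `g_(i, i) ^ s_i = 1` for all `i`
which are not equivalent to another element. Then the quotient of the space of the
`n × m`-matrices over `k` by `G` (acting by left multiplication, that is, on `m` copies of the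
natural representation) is a variety and has a resolution of singularities. -/
theorem result (F : Type) [Field F] [Fintype F] (k : Type u) [Field k] [Algebra F k] (n m : ℕ)
    (hm : 0 < m) (r : Fin n → Fin n → Prop) (hr : IsForest r) (s : Fin n → ℕ)
    (hs : ∀ i, s i ∣ Fintype.card F - 1) :
    IsVariety (quotStr F k m r s) ∧
    ∃ (Y : Scheme.{u}) (π : Y ⟶ quot F k m r s),
      AlgebraicGeometry.IsIntegral Y ∧ AlgebraicGeometry.IsProper π ∧
      AlgebraicGeometry.Smooth (π ≫ quotStr F k m r s) ∧
      ∃ U : (quot F k m r s).Opens,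
        Dense (U : Set (quot F k m r s)) ∧ IsIso (π ∣_ U) := by
  obtain ⟨par, lv, h1, h2, h3, h4⟩ :=
    Pool.Agent.R837.FP.exists_par r hr.refl hr.trans hr.chain
  have hpar : ∀ a, par a ≤ a := Pool.Agent.R837.FP.par_le h1 h2
  have he := invariants_eq (F := F) (k := k) (m := m) r s par hpar lv h4
  unfold quotStr quot
  rw [he]
  have h5 : Algebra.FiniteType k (Pool.Agent.R837.FM.inva (Pool.Agent.R837.FS.affG
      (Pool.Agent.R837.FP.parF F par hpar lv s) (⊥ : Submodule F (Fin m → k)))) :=
    Pool.Agent.R837.FM.finiteType_inva _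
  have h6 : IsVariety (X := Spec (CommRingCat.of
      (Pool.Agent.R837.FM.inva (Pool.Agent.R837.FS.affG
      (Pool.Agent.R837.FP.parF F par hpar lv s) (⊥ : Submodule F (Fin m → k))))))
      (Spec.map (CommRingCat.ofHom (algebraMap k
        (Pool.Agent.R837.FM.inva (Pool.Agent.R837.FS.affG
      (Pool.Agent.R837.FP.parF F par hpar lv s) (⊥ : Submodule F (Fin m → k))))))) :=
    isVariety_spec
  exact ⟨h6, Pool.Agent.R837.FP.main hm par h1 h2 hpar lv h3 s hs ⊥⟩

end Pool.Agent.Results.MP_19ffc6_ag.ForestGroups
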