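import Pool.Agent.R837.FN.Det7

/-!
MP_19ffc6_ag: resolution of the quotients of the generic determinantal varieties (in particular of
the spaces of matrices) in characteristic `p` by the group schemes generated by the Frobenius
kernels of the general linear groups, acting from both sides, and by parabolic groups over finite
fields.
-/

set_option autoImplicit false

open AlgebraicGeometry CategoryTheory MvPolynomial Pool.Agent.H920R2

universe u

namespace Pool.Agent.Results.MP_19ffc6_ag.MixedGroupSchemes

/-- The coordinate ring `k[B, C]` of the space of the pairs of an `n × s`-matrix `B` and an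
`s × m`-matrix `C`. -/
abbrev Pairs (k : Type u) [Field k] (n m s : ℕ) :=
  MvPolynomial ((Fin n × Fin s) ⊕ (Fin s × Fin m)) k

/-- The homomorphism `k[X] → k[B, C]`, `X i j ↦ ∑ l, B i l * C l j`, of the map
`(B, C) ↦ B C` to the space of `n × m`-matrices. Its image `k[BC]` is the coordinate ring of the
variety `X_s` of the `n × m`-matrices of rank at most `s` (`s ≤ n`, `s ≤ m`), with its reduced
structure. -/
noncomputable def product (k : Type u) [Field k] (n m s : ℕ) :
    MvPolynomial (Fin n × Fin m) k →ₐ[k] Pairs k n m s :=
  aeval fun u => ∑ l, X (Sum.inl (u.1, l)) * X (Sum.inr (l, u.2))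

/-- The coaction of the left multiplication: `B ↦ G B`, `C ↦ C` (hence `BC ↦ G (BC)`), where `G`
is the generic `n × n`-matrix. -/
noncomputable def left (k : Type u) [Field k] (n m s : ℕ) :
    Pairs k n m s →ₐ[k] MvPolynomial (Fin n × Fin n) (Pairs k n m s) :=
  aeval (Sum.elim (fun u => ∑ i, X (u.1, i) * C (X (Sum.inl (i, u.2))))
    fun u => C (X (Sum.inr u)))

/-- The coaction of the right multiplication: `B ↦ B`, `C ↦ C H` (hence `BC ↦ (BC) H`), where `H`
is the generic `m × m`-matrix. -/
noncomputable def right (k : Type u) [Field k] (n m s : ℕ) :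
    Pairs k n m s →ₐ[k] MvPolynomial (Fin m × Fin m) (Pairs k n m s) :=
  aeval (Sum.elim (fun u => C (X (Sum.inl u)))
    fun u => ∑ j, X (j, u.2) * C (X (Sum.inr (u.1, j))))

/-- The ideal generated by the `G i j ^ q - δ i j`, for the generic `a × a`-matrix `G`: the
equations of the `r`-th Frobenius kernel of `GL_a`, if `q = p ^ r`. -/
noncomputable def kernelIdeal (k : Type u) [Field k] (n m s a q : ℕ) :
    Ideal (MvPolynomial (Fin a × Fin a) (Pairs k n m s)) :=
  Ideal.span (Set.range fun u => X u ^ q - if u.1 = u.2 then 1 else 0)

section

variable {F : Type} [Field F] {k : Type u} [Field k] [Algebra F k] {n m s : ℕ}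

/-- The substitution `B ↦ g B`, `C ↦ C` (hence `BC ↦ g (BC)`), for a matrix `g` over `F`. -/
noncomputable def subst (g : Matrix (Fin n) (Fin n) F) : Pairs k n m s →ₐ[k] Pairs k n m s :=
  aeval (Sum.elim (fun u => ∑ i, C (algebraMap F k (g u.1 i)) * X (Sum.inl (i, u.2)))
    fun u => X (Sum.inr u))

/-- The matrices `g` with `g_(i, j) = 0` if the level `lv i` is smaller than the level `lv j`
(the block triangular matrices with respect to the levels), and with `g_(i, i) ^ t_i = 1` for all
`i` which are alone in their level. -/
def IsLevelTriangular (lv t : Fin n → ℕ) (g : Matrix (Fin n) (Fin n) F) : Prop :=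
  (∀ i j, lv i < lv j → g i j = 0) ∧ ∀ i, (∀ j, lv j = lv i → j = i) → g i i ^ t i = 1

end

/-- The function `f` is invariant under the left multiplications by `(GL_n)_r`, if
`q = p ^ r`. -/
def IsLeftInvariant (k : Type u) [Field k] (n m s q : ℕ) (f : Pairs k n m s) : Prop :=
  left k n m s f - C f ∈ kernelIdeal k n m s n q

/-- The function `f` is invariant under the right multiplications by `(GL_m)_r'`, if
`q' = p ^ r'`. -/
def IsRightInvariant (k : Type u) [Field k] (n m s q' : ℕ) (f : Pairs k n m s) : Prop :=
  right k n m s f - C f ∈ kernelIdeal k n m s m q'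

/-- The function `f` is invariant under the left multiplications by the invertible level
triangular matrices over `F`. -/
def IsGroupInvariant (F : Type) [Field F] (k : Type u) [Field k] [Algebra F k] (n m s : ℕ)
    (lv t : Fin n → ℕ) (f : Pairs k n m s) : Prop :=
  ∀ g : Matrix.GeneralLinearGroup (Fin n) F,
    IsLevelTriangular lv t (g : Matrix (Fin n) (Fin n) F) →
      subst (g : Matrix (Fin n) (Fin n) F) f = f

/-- The polynomial `f` in the entries of `B` and `C` is a function on the determinantal variety
`X_s` which is invariant under the left multiplications by `(GL_n)_r` and the right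
multiplications by `(GL_m)_r'`, if `q = p ^ r` and `q' = p ^ r'`, and under the left
multiplications by the invertible level triangular matrices over `F`. -/
def IsInvariant (F : Type) [Field F] (k : Type u) [Field k] [Algebra F k] (n m s q q' : ℕ)
    (lv t : Fin n → ℕ) (f : Pairs k n m s) : Prop :=
  (f ∈ (product k n m s).range ∧ IsLeftInvariant k n m s q f ∧ IsRightInvariant k n m s q' f) ∧
    IsGroupInvariant F k n m s lv t f

section

variable (F : Type) [Field F] [Fintype F] (k : Type u) [Field k] [Algebra F k]
  (n m s q q' : ℕ) (lv t : Fin n → ℕ)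

theorem IsInvariant.mul {f g : Pairs k n m s} (hf : IsInvariant F k n m s q q' lv t f)
    (hg : IsInvariant F k n m s q q' lv t g) : IsInvariant F k n m s q q' lv t (f * g) :=
  (Pool.Agent.R837.FN.AD F k n m s q q' lv t).mul_mem' (a := f) (b := g) hf hg

theorem IsInvariant.add {f g : Pairs k n m s} (hf : IsInvariant F k n m s q q' lv t f)
    (hg : IsInvariant F k n m s q q' lv t g) : IsInvariant F k n m s q q' lv t (f + g) :=
  (Pool.Agent.R837.FN.AD F k n m s q q' lv t).add_mem' (a := f) (b := g) hf hg

theorem IsInvariant.const (c : k) :
    IsInvariant F k n m s q q' lv t (algebraMap k (Pairs k n m s) c) :=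
  (Pool.Agent.R837.FN.AD F k n m s q q' lv t).algebraMap_mem' c

end

/-- The algebra of the functions on the determinantal variety `X_s` which are invariant under the
left multiplications by `(GL_n)_r`, the right multiplications by `(GL_m)_r'`, if `q = p ^ r` and
`q' = p ^ r'`, and the left multiplications by the invertible level triangular matrices over
`F`. -/
noncomputable def invariants (F : Type) [Field F] [Fintype F] (k : Type u) [Field k]
    [Algebra F k] (n m s q q' : ℕ) (lv t : Fin n → ℕ) : Subalgebra k (Pairs k n m s) where
  carrier := {f | IsInvariant F k n m s q q' lv t f}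
  mul_mem' := fun ha hb => IsInvariant.mul F k n m s q q' lv t ha hb
  add_mem' := fun ha hb => IsInvariant.add F k n m s q q' lv t ha hb
  algebraMap_mem' := fun c => IsInvariant.const F k n m s q q' lv t c

/-- The quotient of the determinantal variety `X_s`. -/
noncomputable def quot (F : Type) [Field F] [Fintype F] (k : Type u) [Field k] [Algebra F k]
    (n m s q q' : ℕ) (lv t : Fin n → ℕ) : Scheme.{u} :=
  Spec (CommRingCat.of (invariants F k n m s q q' lv t))

/-- The structure morphism of the quotient. -/
noncomputable def quotStr (F : Type) [Field F] [Fintype F] (k : Type u) [Field k] [Algebra F k]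
    (n m s q q' : ℕ) (lv t : Fin n → ℕ) :
    quot F k n m s q q' lv t ⟶ Spec (CommRingCat.of k) :=
  Spec.map (CommRingCat.ofHom (algebraMap k (invariants F k n m s q q' lv t)))

/-- Let `p` be a prime, `k` a field of characteristic `p` which contains the finite field `F` with
`q` elements, `0 < s ≤ n`, `s ≤ m`, `0 < r` and `r' ≤ r`. Let `lv i`, `i < n`, be levels, and
`t i` divisors of `q - 1`. Let `Γ` be the finite group of the invertible `n × n`-matrices `g` over
`F` which are block triangular with respect to the levels, with `g_(i, i) ^ t_i = 1` for all `i`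
which are alone in their level. Then the quotient of the variety `X_s` of the `n × m`-matrices of
rank at most `s` over `k` by the group scheme `((GL_n)_r ⋊ Γ) × (GL_m)_r'`, acting by left and
right multiplication, where `(GL_n)_r` and `(GL_m)_r'` are the Frobenius kernels, is a variety and
has a resolution of singularities. -/
theorem result (p : ℕ) [Fact p.Prime] (F : Type) [Field F] [Fintype F] (k : Type u) [Field k]
    [CharP k p] [Algebra F k] (n m s r r' : ℕ) (hs : 0 < s) (hsn : s ≤ n) (hsm : s ≤ m)
    (_h : 0 < r) (hr : r' ≤ r) (lv t : Fin n → ℕ) (ht : ∀ i, t i ∣ Fintype.card F - 1) :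
    IsVariety (quotStr F k n m s (p ^ r) (p ^ r') lv t) ∧
      HasResolution (quotStr F k n m s (p ^ r) (p ^ r') lv t) := by
  have h1 : Algebra.FiniteType k (Pool.Agent.R837.FN.AD F k n m s (p ^ r) (p ^ r') lv t) :=
    Pool.Agent.R837.FN.finiteType_AD hr lv t
  have h2 : IsVariety (X := Spec (CommRingCat.of
      (Pool.Agent.R837.FN.AD F k n m s (p ^ r) (p ^ r') lv t)))
      (Spec.map (CommRingCat.ofHom (algebraMap k
        (Pool.Agent.R837.FN.AD F k n m s (p ^ r) (p ^ r') lv t)))) :=
    isVariety_spec
  exact ⟨h2, Pool.Agent.R837.FN.main_det (F := F) (k := k) (p := p) hs hsn hsm hr lv t ht⟩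

end Pool.Agent.Results.MP_19ffc6_ag.MixedGroupSchemes
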