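import Pool.Agent.R837.FT.Tw4

/-!
MP_19ffc6_ag: resolution of the quotients of affine spaces by the sums of Frobenius twists of the
natural representations of general linear groups over finite fields and of parabolic groups over
towers of finite fields.
-/

set_option autoImplicit false

open AlgebraicGeometry CategoryTheory MvPolynomial Pool.Agent.H920R2

universe u

namespace Pool.Agent.Results.MP_19ffc6_ag.TwistedRepresentations

variable {K : Type} [Field K] {k : Type u} [Field k] {n m : ℕ}

/-- The substitution `x_(i, l) ↦ ∑ j, κ_l (g_(i, j)) * x_(j, l)` in the polynomial ring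
`k[x_(i, l)]`, `i < n`, `l < m`, for an `n × n`-matrix `g` over `K` and embeddings `κ_l` of `K`
into `k`, `l < m`: the matrix `κ_l (g)` acts on the `l`-th column. -/
noncomputable def subst (κ : Fin m → (K →+* k)) (g : Matrix (Fin n) (Fin n) K) :
    MvPolynomial (Fin n × Fin m) k →ₐ[k] MvPolynomial (Fin n × Fin m) k :=
  aeval fun p => ∑ j, C (κ p.2 (g p.1 j)) * X (j, p.2)

/-- The matrices `g` over `K` with `g_(i, j) = 0` if the level `lv i` is smaller than the level
`lv j` (the block triangular matrices with respect to the levels), and `g_(i, j)` in the subfield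
`E (lv j)` of `K` otherwise. -/
def IsTowerMatrix (E : ℕ → Subfield K) (lv : Fin n → ℕ) (g : Matrix (Fin n) (Fin n) K) : Prop :=
  (∀ i j, lv i < lv j → g i j = 0) ∧ ∀ i j, g i j ∈ E (lv j)

/-- The algebra of the polynomials which are invariant under all invertible matrices of the given
shape. -/
noncomputable def invariants (κ : Fin m → (K →+* k)) (E : ℕ → Subfield K) (lv : Fin n → ℕ) :
    Subalgebra k (MvPolynomial (Fin n × Fin m) k) where
  carrier := {f | ∀ g : Matrix.GeneralLinearGroup (Fin n) K,
    IsTowerMatrix E lv (g : Matrix (Fin n) (Fin n) K) →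
      subst κ (g : Matrix (Fin n) (Fin n) K) f = f}
  mul_mem' := fun {a b} ha hb g hg => by rw [map_mul, ha g hg, hb g hg]
  add_mem' := fun {a b} ha hb g hg => by rw [map_add, ha g hg, hb g hg]
  algebraMap_mem' := fun c g _ => AlgHom.commutes _ c

/-- The quotient of the affine space of dimension `n m`. -/
noncomputable def quot (κ : Fin m → (K →+* k)) (E : ℕ → Subfield K) (lv : Fin n → ℕ) :
    Scheme.{u} := Spec (CommRingCat.of (invariants κ E lv))

/-- The structure morphism of the quotient. -/
noncomputable def quotStr (κ : Fin m → (K →+* k)) (E : ℕ → Subfield K) (lv : Fin n → ℕ) :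
    quot κ E lv ⟶ Spec (CommRingCat.of k) :=
  Spec.map (CommRingCat.ofHom (algebraMap k (invariants κ E lv)))

/-- Let `K` be a finite field, `k` a field, `m > 0`, and `κ_l : K → k`, `l < m`, arbitrary
embeddings (they differ by powers of the Frobenius automorphism). Let
`K ⊇ E_0 ⊇ E_1 ⊇ E_2 ⊇ ...` be subfields and `lv i`, `i < n`, levels. Let `G` be the finite group of
the invertible `n × n`-matrices `g` over `K` with `g_(i, j) = 0` for `lv i < lv j` and
`g_(i, j) ∈ E_(lv j)` for all `i`, `j`; it acts on the affine space of the `n × m`-matrices over `k`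
so that `g` acts on the `l`-th column through `κ_l (g)`. Then the quotient is a variety and has a
resolution of singularities. -/
theorem result (K : Type) [Field K] [Finite K] (k : Type u) [Field k] (n m : ℕ) (hm : 0 < m)
    (κ : Fin m → (K →+* k)) (E : ℕ → Subfield K) (hE : Antitone E) (lv : Fin n → ℕ) :
    IsVariety (quotStr κ E lv) ∧
    ∃ (Y : Scheme.{u}) (π : Y ⟶ quot κ E lv),
      AlgebraicGeometry.IsIntegral Y ∧ AlgebraicGeometry.IsProper π ∧
      AlgebraicGeometry.Smooth (π ≫ quotStr κ E lv) ∧
      ∃ U : (quot κ E lv).Opens, Dense (U : Set (quot κ E lv)) ∧ IsIso (π ∣_ U) := by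
  obtain ⟨p, hchK⟩ := CharP.exists K
  have hp : Fact p.Prime := ⟨CharP.char_is_prime K p⟩
  have hch : CharP k p := charP_of_injective_ringHom (κ ⟨0, hm⟩).injective p
  let _ : Algebra (ZMod p) K := ZMod.algebra K p
  let _ : Algebra (ZMod p) k := ZMod.algebra k p
  have hκ : ∀ l (c : ZMod p), κ l (algebraMap (ZMod p) K c) = algebraMap (ZMod p) k c := by
    intro l c
    exact congrArg (fun f : ZMod p →+* k => f c)
      (Subsingleton.elim ((κ l).comp (algebraMap (ZMod p) K)) (algebraMap (ZMod p) k))
  have hEF : ∀ a (c : ZMod p), algebraMap (ZMod p) K c ∈ E a := by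
    intro a c
    obtain ⟨z, rfl⟩ := ZMod.intCast_surjective c
    rw [map_intCast]
    exact intCast_mem (E a) z
  have heq : Pool.Agent.R837.FT.AT κ hE lv = invariants κ E lv := by
    apply le_antisymm
    · exact fun f hf g hg => hf g fun i j => ⟨hg.1 i j, hg.2 i j⟩
    · exact fun f hf g hg => hf g ⟨fun i j => (hg i j).1, fun i j => (hg i j).2⟩
  have h1 : Algebra.FiniteType k (invariants κ E lv) := by
    rw [← heq]
    exact Pool.Agent.R837.FT.finiteType_AT κ hE lv
  have h2 : IsVariety (X := Spec (CommRingCat.of (invariants κ E lv)))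
      (Spec.map (CommRingCat.ofHom (algebraMap k (invariants κ E lv)))) :=
    isVariety_spec
  have h3 := Pool.Agent.R837.FT.main_T (F := ZMod p) κ hκ hm hE hEF lv
  rw [heq] at h3
  exact ⟨h2, h3⟩

end Pool.Agent.Results.MP_19ffc6_ag.TwistedRepresentations
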